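import Pool.Agent.Q66.DS.Stm

/-! # Project DS (helper66), job OSC -/

set_option autoImplicit false

namespace Pool.Agent.Q95.DS

open Pool.Agent.Q66.DS

theorem norm_e (x : ℝ) : ‖e x‖ = 1 := by
  unfold e
  exact Complex.norm_exp_ofReal_mul_I x

theorem t_OSC : S_OSC := by
  intro R a b z hR hab hbR
  have h1 : ‖∫ x in a..b, e (z * x)‖ ≤ R := by
    have h := intervalIntegral.norm_integral_le_of_norm_le_const (a := a) (b := b)
      (f := fun x => e (z * x)) (C := 1) (fun x _ => (norm_e _).le)
    rw [one_mul, abs_of_nonneg (by linarith)] at h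
    exact h.trans hbR
  unfold kr
  have hz0 : 0 ≤ R * |z| := mul_nonneg hR.le (abs_nonneg z)
  rw [le_div_iff₀ (by linarith)]
  rcases le_or_gt (R * |z|) 1 with h2 | h2
  · have h3 : ‖∫ x in a..b, e (z * x)‖ * (1 + R * |z|) ≤ R * 2 :=
      mul_le_mul h1 (by linarith) (by linarith) hR.le
    linarith
  · have hz : z ≠ 0 := by
      rintro rfl
      rw [abs_zero, mul_zero] at h2
      linarith
    have hzp : 0 < |z| := abs_pos.2 hz
    have hc : ((z : ℂ) * Complex.I) ≠ 0 :=
      mul_ne_zero (Complex.ofReal_ne_zero.2 hz) Complex.I_ne_zero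
    have h3 : ∫ x in a..b, e (z * x)
        = (Complex.exp ((z : ℂ) * Complex.I * b) - Complex.exp ((z : ℂ) * Complex.I * a))
          / ((z : ℂ) * Complex.I) := by
      rw [← integral_exp_mul_complex hc]
      congr 1
      funext x
      unfold e
      congr 1
      push_cast
      ring
    have hn : ∀ y : ℝ, ‖Complex.exp ((z : ℂ) * Complex.I * y)‖ = 1 := by
      intro y
      have h4 := norm_e (z * y)
      unfold e at h4
      rw [← h4]
      congr 2
      push_cast
      ring
    have h5 : ‖∫ x in a..b, e (z * x)‖ ≤ 2 / |z| := by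
      rw [h3, norm_div, norm_mul, Complex.norm_I, mul_one, Complex.norm_real, Real.norm_eq_abs]
      refine div_le_div_of_nonneg_right ?_ hzp.le
      refine (norm_sub_le _ _).trans ?_
      rw [hn, hn]
      norm_num
    have h6 : ‖∫ x in a..b, e (z * x)‖ * (1 + R * |z|) ≤ 2 / |z| * (2 * (R * |z|)) :=
      mul_le_mul h5 (by linarith) (by linarith) (by positivity)
    have h7 : 2 / |z| * (2 * (R * |z|)) = 4 * R := by
      field_simp
      norm_num
    linarith

end Pool.Agent.Q95.DS
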